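import Pool.Agent.H3.GE9

set_option autoImplicit false

namespace Pool.Agent.Results.MP_54c2ef_al.Good

universe u

theorem result (K : Type u) [Field K] (n : ℕ)
    (φ : FreeAlgebra K (Fin n) →ₐ[K] FreeAlgebra K (Fin n))
    (h : ∀ m : ℕ, 1 ≤ m → ∃ (ψ : FreeAlgebra K (Fin n) →ₐ[K] FreeAlgebra K (Fin n))
      (α : FreeAlgebra K (Fin n) ≃ₐ[K] FreeAlgebra K (Fin n)),
      (φ = ψ.comp α.toAlgHom ∨ φ = α.toAlgHom.comp ψ) ∧
      ∀ i : Fin n, ψ (FreeAlgebra.ι K i) - FreeAlgebra.ι K i ∈ Submodule.span K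
        {w | ∃ l : List (Fin n), m ≤ l.length ∧ w = (l.map (FreeAlgebra.ι K)).prod}) :
    Function.Bijective φ :=
  Pool.Agent.H3.GE.good_bij φ h

end Pool.Agent.Results.MP_54c2ef_al.Good
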